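import Mathlib
set_option autoImplicit false
open Finset
open scoped Classical
namespace Pool.Agent.Results.MP_36f34d_co.FiveThirds

/-- Euclidean distance in `ℝ³`. -/
noncomputable def dst (x y : Fin 3 → ℝ) : ℝ := √(∑ i, (x i - y i) ^ 2)

/-- `T'` is the image of `T` under a similarity: a bijection scaling all distances by `l > 0`. -/
def Similar (T T' : Finset (Fin 3 → ℝ)) : Prop :=
  ∃ (φ : (Fin 3 → ℝ) → (Fin 3 → ℝ)) (l : ℝ), 0 < l ∧ Function.Bijective φ ∧
    (∀ x y, dst (φ x) (φ y) = l * dst x y) ∧ T' = T.image φ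

/-- The tetrahedron formed by the origin and the three standard basis vectors. -/
noncomputable def T0 : Finset (Fin 3 → ℝ) := {![0, 0, 0], ![1, 0, 0], ![0, 1, 0], ![0, 0, 1]}

/-- The 4-element subsets of `P` that are similar to `T0`. -/
noncomputable def copies (P : Finset (Fin 3 → ℝ)) : Finset (Finset (Fin 3 → ℝ)) :=
  (P.powersetCard 4).filter (fun B => Similar T0 B)

def phi {R : Type} [CommRing R] (p : Fin 3 → R) (a b c d : R) (x : Fin 3 → R) : Fin 3 → R :=
  ![p 0 + (a ^ 2 + b ^ 2 - c ^ 2 - d ^ 2) * x 0 + 2 * (b * c - a * d) * x 1 + 2 * (b * d + a * c) * x 2,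
    p 1 + 2 * (b * c + a * d) * x 0 + (a ^ 2 - b ^ 2 + c ^ 2 - d ^ 2) * x 1 + 2 * (c * d - a * b) * x 2,
    p 2 + 2 * (b * d - a * c) * x 0 + 2 * (c * d + a * b) * x 1 + (a ^ 2 - b ^ 2 - c ^ 2 + d ^ 2) * x 2]

lemma phi_dst (p : Fin 3 → ℝ) (a b c d : ℝ) (x y : Fin 3 → ℝ) :
    dst (phi p a b c d x) (phi p a b c d y) = (a ^ 2 + b ^ 2 + c ^ 2 + d ^ 2) * dst x y := by
  unfold dst
  rw [← Real.sqrt_sq (show 0 ≤ a ^ 2 + b ^ 2 + c ^ 2 + d ^ 2 by positivity),
    ← Real.sqrt_mul (by positivity)]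
  congr 1
  simp only [phi, Fin.sum_univ_three, Matrix.cons_val_zero, Matrix.cons_val_one, Matrix.cons_val]
  ring

lemma phi_inv (p : Fin 3 → ℝ) (a b c d : ℝ) (ha : 0 < a) : Function.Bijective (phi p a b c d) := by
  have hN : a ^ 2 + b ^ 2 + c ^ 2 + d ^ 2 ≠ 0 := by positivity
  refine Function.bijective_iff_has_inverse.mpr
    ⟨fun y => phi 0 a (-b) (-c) (-d) (fun i => (y i - p i) / (a ^ 2 + b ^ 2 + c ^ 2 + d ^ 2) ^ 2),
      fun x => ?_, fun x => ?_⟩ <;>
  · funext i
    fin_cases i <;> simp [phi] <;> field_simp <;> ring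

lemma T0_card : T0.card = 4 := by
  unfold T0
  rw [Finset.card_insert_of_notMem, Finset.card_insert_of_notMem, Finset.card_insert_of_notMem,
    Finset.card_singleton] <;> simp

def cst (p : Fin 3 → ℤ) : Fin 3 → ℝ := fun i => p i

lemma cst_inj : Function.Injective cst := fun p q h => funext fun i => by
  have := congrFun h i
  simpa [cst] using this

lemma phi_cst (p : Fin 3 → ℤ) (a b c d : ℤ) (x : Fin 3 → ℤ) :
    phi (cst p) a b c d (cst x) = cst (phi p a b c d x) := by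
  funext i
  fin_cases i <;> simp [phi, cst]

lemma main (X : ℕ) : ∃ P : Finset (Fin 3 → ℝ), P.card ≤ 4096 * X ^ 6 ∧
    2 * X ^ 10 ≤ (copies P).card := by
  set G : Finset (Fin 3 → ℤ) := Fintype.piFinset (fun _ => Finset.Ico (0 : ℤ) (16 * X ^ 2)) with hG
  set H : Finset (Fin 3 → ℤ) := Fintype.piFinset (fun _ => Finset.Ico (4 * X ^ 2 : ℤ) (12 * X ^ 2))
    with hH
  set I : Finset ℤ := Finset.Icc (1 : ℤ) X with hI
  set D := H ×ˢ I ×ˢ I ×ˢ I ×ˢ I with hD
  set F : (Fin 3 → ℤ) × ℤ × ℤ × ℤ × ℤ → (Fin 3 → ℝ) → (Fin 3 → ℝ) :=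
    fun z => phi (cst z.1) z.2.1 z.2.2.1 z.2.2.2.1 z.2.2.2.2 with hF
  have cG : G.card = 4096 * X ^ 6 := by
    have : (16 * (X : ℤ) ^ 2 - 0).toNat = 16 * X ^ 2 := by
      rw [sub_zero]; exact_mod_cast Int.toNat_natCast (16 * X ^ 2)
    simp only [hG, Fintype.card_piFinset, Int.card_Ico, this, Finset.prod_const, card_univ,
      Fintype.card_fin]
    ring
  have cD : D.card = 256 * (2 * X ^ 10) := by
    have : (12 * (X : ℤ) ^ 2 - 4 * X ^ 2).toNat = 8 * X ^ 2 := by
      rw [show (12 * (X : ℤ) ^ 2 - 4 * X ^ 2) = ((8 * X ^ 2 : ℕ) : ℤ) by push_cast; ring]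
      exact Int.toNat_natCast _
    simp only [hD, hH, hI, card_product, Fintype.card_piFinset, Int.card_Ico, this,
      Finset.prod_const, card_univ, Fintype.card_fin, Int.card_Icc]
    simp
    ring
  refine ⟨G.image cst, Finset.card_image_le.trans cG.le, ?_⟩
  have e0 : (![0, 0, 0] : Fin 3 → ℝ) = cst ![0, 0, 0] := by funext i; fin_cases i <;> simp [cst]
  have e1 : (![1, 0, 0] : Fin 3 → ℝ) = cst ![1, 0, 0] := by funext i; fin_cases i <;> simp [cst]
  have e2 : (![0, 1, 0] : Fin 3 → ℝ) = cst ![0, 1, 0] := by funext i; fin_cases i <;> simp [cst]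
  have e3 : (![0, 0, 1] : Fin 3 → ℝ) = cst ![0, 0, 1] := by funext i; fin_cases i <;> simp [cst]
  have maps : ∀ z ∈ D, T0.image (F z) ∈ copies (G.image cst) := by
    rintro ⟨p, a, b, c, d⟩ hz
    simp only [hD, hI, mem_product, Finset.mem_Icc] at hz
    obtain ⟨hp, ⟨a1, a2⟩, ⟨b1, b2⟩, ⟨c1, c2⟩, ⟨d1, d2⟩⟩ := hz
    have aR : (0 : ℝ) < a := by exact_mod_cast a1
    simp only [copies, mem_filter, mem_powersetCard]
    refine ⟨⟨?_, ?_⟩, F (p, a, b, c, d), _, ?_, phi_inv _ _ _ _ _ aR, phi_dst _ _ _ _ _, rfl⟩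
    · have p0 := Finset.mem_Ico.mp (Fintype.mem_piFinset.mp hp 0)
      have p1 := Finset.mem_Ico.mp (Fintype.mem_piFinset.mp hp 1)
      have p2 := Finset.mem_Ico.mp (Fintype.mem_piFinset.mp hp 2)
      have k : ∀ s t : ℤ, 1 ≤ s → s ≤ X → 1 ≤ t → t ≤ X → 0 ≤ s * t ∧ s * t ≤ (X : ℤ) ^ 2 := by
        intro s t h1 h2 h3 h4
        constructor <;> nlinarith
      have := k a a a1 a2 a1 a2
      have := k b b b1 b2 b1 b2
      have := k c c c1 c2 c1 c2
      have := k d d d1 d2 d1 d2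
      have := k a b a1 a2 b1 b2
      have := k a c a1 a2 c1 c2
      have := k a d a1 a2 d1 d2
      have := k b c b1 b2 c1 c2
      have := k b d b1 b2 d1 d2
      have := k c d c1 c2 d1 d2
      intro v hv
      obtain ⟨x, hx, rfl⟩ := mem_image.mp hv
      simp only [T0, mem_insert, mem_singleton, e0, e1, e2, e3] at hx
      rcases hx with rfl | rfl | rfl | rfl <;>
      · simp only [hF, phi_cst]
        refine mem_image_of_mem _ (Fintype.mem_piFinset.mpr (fun i => Finset.mem_Ico.mpr ?_))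
        fin_cases i <;> simp [phi, sq] at * <;> omega
    · rw [Finset.card_image_of_injective _ (phi_inv _ _ _ _ _ aR).1, T0_card]
    · positivity
  have key := Finset.card_le_mul_card_image_of_maps_to maps 256 (by
    intro B hB
    have B4 : B.card = 4 := (mem_powersetCard.mp (mem_filter.mp hB).1).2
    have : (B ×ˢ B ×ˢ B ×ˢ B).card = 256 := by simp [B4]
    rw [← this]
    refine Finset.card_le_card_of_injOn
      (fun z => (F z ![0, 0, 0], F z ![1, 0, 0], F z ![0, 1, 0], F z ![0, 0, 1])) ?_ ?_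
    · intro z hz
      have h2 : T0.image (F z) = B := (mem_filter.mp hz).2
      simp only [coe_product, Set.mem_prod, mem_coe, ← h2]
      refine ⟨?_, ?_, ?_, ?_⟩ <;> exact mem_image_of_mem _ (by simp [T0])
    · rintro ⟨p, a, b, c, d⟩ hz ⟨p', a', b', c', d'⟩ hz' h
      have hz := (mem_filter.mp hz).1
      have hz' := (mem_filter.mp hz').1
      simp only [hD, hI, mem_product, Finset.mem_Icc] at hz hz'
      obtain ⟨-, ⟨a1, -⟩, -, ⟨c1, -⟩, ⟨d1, -⟩⟩ := hz
      obtain ⟨-, ⟨a1', -⟩, -, -, -⟩ := hz'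
      simp only [hF, e0, e1, e2, e3, phi_cst, Prod.mk.injEq, cst_inj.eq_iff] at h
      obtain ⟨h0, h1, h2, h3⟩ := h
      have u0 := congrFun h0 0
      have u1 := congrFun h0 1
      have u2 := congrFun h0 2
      have v1 := congrFun h1 1
      have v2 := congrFun h1 2
      have w0 := congrFun h2 0
      have w2 := congrFun h2 2
      have t0 := congrFun h3 0
      have t1 := congrFun h3 1
      simp [phi] at u0 u1 u2 v1 v2 w0 w2 t0 t1
      have ad : a * d = a' * d' := by omega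
      have ac : a * c = a' * c' := by omega
      have ab : a * b = a' * b' := by omega
      have cd : c * d = c' * d' := by omega
      have aa : (a ^ 2 - a' ^ 2) * (c * d) = 0 := by
        linear_combination (a * c) * ad + (a' * d') * ac - a' ^ 2 * cd
      have a2 : a ^ 2 = a' ^ 2 := by
        have := (mul_eq_zero.mp aa).resolve_right (by positivity)
        linarith
      have a3 : a = a' := by nlinarith
      subst a3
      have a0 : a ≠ 0 := by omega
      have pp : p = p' := by funext i; fin_cases i <;> assumption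
      rw [pp, mul_left_cancel₀ a0 ab, mul_left_cancel₀ a0 ac, mul_left_cancel₀ a0 ad])
  omega

theorem result (n : ℕ) (hn : 4096 ≤ n) :
    ∃ P : Finset (Fin 3 → ℝ), P.card = n ∧
      (n : ℝ) ^ ((5 : ℝ) / 3) / 2 ^ 29 ≤ (copies P).card := by
  have hex : ∃ k, n < 4096 * (k + 1) ^ 6 := ⟨n, by
    have := Nat.le_self_pow (n := 6) (by norm_num) (n + 1)
    omega⟩
  obtain ⟨X, k1, k2, k3⟩ : ∃ k, 1 ≤ k ∧ n < 4096 * (k + 1) ^ 6 ∧ 4096 * k ^ 6 ≤ n := by
    have h0 : Nat.find hex ≠ 0 := by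
      intro e
      have := Nat.find_spec hex
      rw [e] at this
      omega
    obtain ⟨i, hi⟩ := Nat.exists_eq_succ_of_ne_zero h0
    refine ⟨Nat.find hex, by omega, Nat.find_spec hex, ?_⟩
    have := Nat.find_min hex (m := i) (by omega)
    rw [hi]
    exact not_lt.mp this
  obtain ⟨P0, p1, p2⟩ := main X
  obtain ⟨P, q1, q2⟩ := Infinite.exists_superset_card_eq P0 n (p1.trans k3)
  refine ⟨P, q2, ?_⟩
  have h1 : (copies P0).card ≤ (copies P).card :=
    Finset.card_le_card (Finset.filter_subset_filter _ (Finset.powersetCard_mono q1))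
  have h2 : n ≤ (64 * X ^ 2) ^ 3 := by
    have : (X + 1) ^ 6 ≤ (2 * X) ^ 6 := Nat.pow_le_pow_left (by omega) 6
    calc n ≤ 4096 * (2 * X) ^ 6 := by omega
      _ = _ := by ring
  have h3 : (n : ℝ) ^ ((5 : ℝ) / 3) ≤ (64 * (X : ℝ) ^ 2) ^ 5 := by
    have h4 : (n : ℝ) ≤ (64 * (X : ℝ) ^ 2) ^ 3 := by exact_mod_cast h2
    refine (Real.rpow_le_rpow (by positivity) h4 (by norm_num)).trans_eq ?_
    rw [← Real.rpow_natCast _ 3, ← Real.rpow_mul (by positivity), ← Real.rpow_natCast _ 5]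
    norm_num
  have h5 : (2 * (X : ℝ) ^ 10) ≤ (copies P).card := by exact_mod_cast p2.trans h1
  rw [div_le_iff₀ (by positivity)]
  calc _ ≤ _ := h3
    _ = 2 * (X : ℝ) ^ 10 * 2 ^ 29 := by ring
    _ ≤ _ := by gcongr

end Pool.Agent.Results.MP_36f34d_co.FiveThirds
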